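import Mathlib

/-!
# MP_4e2f3e_nt: progressions in the complement of a sumset in `ℤ/N`

For every large prime `N` there is `A ⊆ ℤ/N` with `|A| > N/4`, `|A + A| ≤ (99/100) N` such that the
complement of `A + A` contains no arithmetic progression with more than `2 log₂ N + 3` elements.

Construction: let `u = ⌊N/100⌋`, let `C ⊆ [0, 4u)` be a set with at least `2u` elements and without
long progressions (counting argument) and `W = [0, 4u) ∖ C`.  Then
`A = [10u, 40u] ∪ {5u} ∪ (W - 5u) ∪ {-6u, -1-40u}` satisfies `A + A = (ℤ/N) ∖ C`.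
-/

set_option autoImplicit false

open Finset
open scoped Pointwise

namespace Pool.Agent.Results.MP_4e2f3e_nt.LogProgressions

/-- `X ⊆ ℤ/N` contains an arithmetic progression `a, a + d, …, a + (k-1) d` with `d ≠ 0`, `k ≤ N`. -/
def HasAP {N : ℕ} (X : Set (ZMod N)) (k : ℕ) : Prop :=
  k ≤ N ∧ ∃ a d : ZMod N, d ≠ 0 ∧ ∀ i : ℕ, i < k → a + (i : ZMod N) * d ∈ X

/-- `L X`: the largest `k` such that `X` contains an arithmetic progression of length `k`
(`0` for the empty set). -/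
noncomputable def L {N : ℕ} (X : Set (ZMod N)) : ℕ := sSup {k : ℕ | HasAP X k}

/-- counting: a large subset of `J` that contains no member of a small family of `k`-sets -/
theorem exists_large {α : Type*} [DecidableEq α] (J : Finset α) (F : Finset (Finset α)) (k : ℕ)
    (hk : ∀ P ∈ F, P.card = k) (hcard : 2 * F.card < 2 ^ k) :
    ∃ C ⊆ J, J.card ≤ 2 * C.card ∧ ∀ P ∈ F, ¬ P ⊆ C := by
  by_contra hcon
  push Not at hcon
  have h1 : J.powerset.filter (fun C => J.card ≤ 2 * C.card) ⊆ F.biUnion (fun P => Icc P J) := by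
    intro C hC
    rw [mem_filter, mem_powerset] at hC
    obtain ⟨P, hP, hPC⟩ := hcon C hC.1 hC.2
    rw [mem_biUnion]
    exact ⟨P, hP, by rw [mem_Icc]; exact ⟨hPC, hC.1⟩⟩
  have h2 : (F.biUnion (fun P => Icc P J)).card * 2 ^ k ≤ F.card * 2 ^ J.card := by
    calc (F.biUnion (fun P => Icc P J)).card * 2 ^ k
        ≤ (∑ P ∈ F, (Icc P J).card) * 2 ^ k := Nat.mul_le_mul_right _ card_biUnion_le
      _ = ∑ P ∈ F, (Icc P J).card * 2 ^ k := by rw [sum_mul]
      _ ≤ ∑ P ∈ F, 2 ^ J.card := by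
          apply sum_le_sum
          intro P hP
          by_cases hPJ : P ⊆ J
          · rw [card_Icc_finset hPJ, hk P hP, ← pow_add, Nat.sub_add_cancel]
            rw [← hk P hP]
            exact card_le_card hPJ
          · rw [Icc_eq_empty (by simpa using hPJ)]
            simp
      _ = F.card * 2 ^ J.card := by rw [sum_const, smul_eq_mul]
  have h3 : (J.powerset.filter (fun C => ¬ J.card ≤ 2 * C.card)).card
      ≤ (J.powerset.filter (fun C => J.card ≤ 2 * C.card)).card := by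
    apply card_le_card_of_injOn (fun C => J \ C)
    · intro C hC
      rw [mem_coe, mem_filter, mem_powerset] at hC
      rw [mem_coe, mem_filter, mem_powerset]
      refine ⟨sdiff_subset, ?_⟩
      rw [card_sdiff_of_subset hC.1]
      have := card_le_card hC.1
      omega
    · intro C hC C' hC' h
      rw [mem_coe, mem_filter, mem_powerset] at hC hC'
      have h' : J \ C = J \ C' := h
      rw [← Finset.sdiff_sdiff_eq_self hC.1, h', Finset.sdiff_sdiff_eq_self hC'.1]
  have h4 := card_filter_add_card_filter_not (s := J.powerset) (fun C => J.card ≤ 2 * C.card)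
  rw [card_powerset] at h4
  have h5 := card_le_card h1
  have h6 : 2 ^ J.card ≤ 2 * (F.biUnion (fun P => Icc P J)).card := by omega
  have h7 : 2 ^ J.card * 2 ^ k ≤ 2 * F.card * 2 ^ J.card := by
    calc 2 ^ J.card * 2 ^ k ≤ 2 * (F.biUnion (fun P => Icc P J)).card * 2 ^ k :=
          Nat.mul_le_mul_right _ h6
      _ = 2 * ((F.biUnion (fun P => Icc P J)).card * 2 ^ k) := by ring
      _ ≤ 2 * (F.card * 2 ^ J.card) := Nat.mul_le_mul_left _ h2
      _ = 2 * F.card * 2 ^ J.card := by ring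
  have h8 : 0 < 2 ^ J.card := by positivity
  rw [mul_comm] at h7
  exact absurd (Nat.le_of_mul_le_mul_right h7 h8) (by omega)

/-- a large subset of `J ⊆ ℤ/N` without progressions of length `k` -/
theorem exists_free {N : ℕ} (hN : N.Prime) (J : Finset (ZMod N)) (k : ℕ) (hkN : k ≤ N)
    (hk : 2 * N ^ 2 < 2 ^ k) :
    ∃ C ⊆ J, J.card ≤ 2 * C.card ∧ ¬ HasAP (C : Set (ZMod N)) k := by
  classical
  have : Fact N.Prime := ⟨hN⟩
  have : NeZero N := ⟨hN.ne_zero⟩
  obtain ⟨C, hCJ, hC, hno⟩ := exists_large J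
    (((univ : Finset (ZMod N × ZMod N)).filter (fun p => p.2 ≠ 0)).image
      (fun p => (range k).image (fun i : ℕ => p.1 + (i : ZMod N) * p.2))) k (by
      intro P hP
      rw [mem_image] at hP
      obtain ⟨p, hp, rfl⟩ := hP
      rw [mem_filter] at hp
      rw [card_image_of_injOn, card_range]
      intro i hi j hj h
      rw [mem_coe, mem_range] at hi hj
      have h' : p.1 + (i : ZMod N) * p.2 = p.1 + (j : ZMod N) * p.2 := h
      have h2 : (i : ZMod N) = (j : ZMod N) := mul_right_cancel₀ hp.2 (add_left_cancel h')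
      rw [ZMod.natCast_eq_natCast_iff'] at h2
      rwa [Nat.mod_eq_of_lt (by omega), Nat.mod_eq_of_lt (by omega)] at h2) (by
      have h1 := (card_image_le (s := (univ : Finset (ZMod N × ZMod N)).filter (fun p => p.2 ≠ 0))
        (f := fun p => (range k).image (fun i : ℕ => p.1 + (i : ZMod N) * p.2)))
      have h2 : ((univ : Finset (ZMod N × ZMod N)).filter (fun p => p.2 ≠ 0)).card ≤ N ^ 2 := by
        refine (card_filter_le _ _).trans ?_
        rw [card_univ, Fintype.card_prod, ZMod.card]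
        exact le_of_eq (by ring)
      omega)
  refine ⟨C, hCJ, hC, ?_⟩
  rintro ⟨-, a, d, hd, hap⟩
  refine hno _ (mem_image.2 ⟨(a, d), by simpa using hd, rfl⟩) ?_
  intro x hx
  rw [mem_image] at hx
  obtain ⟨i, hi, rfl⟩ := hx
  exact hap i (mem_range.1 hi)

/-- the residues of the constructed set -/
def S (N u : ℕ) (W : Finset ℕ) : Finset ℕ :=
  Icc (10 * u) (40 * u) ∪ {5 * u, N - 6 * u, N - 1 - 40 * u} ∪ W.image (fun w => N + w - 5 * u)

theorem mem_S {N u : ℕ} {W : Finset ℕ} {n : ℕ} : n ∈ S N u W ↔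
    (10 * u ≤ n ∧ n ≤ 40 * u) ∨ n = 5 * u ∨ n = N - 6 * u ∨ n = N - 1 - 40 * u ∨
      ∃ w ∈ W, n = N + w - 5 * u := by
  unfold S
  simp only [mem_union, mem_Icc, mem_insert, mem_singleton, mem_image]
  constructor
  · rintro ((h | h | h | h) | ⟨w, hw, h⟩)
    · exact Or.inl h
    · exact Or.inr (Or.inl h)
    · exact Or.inr (Or.inr (Or.inl h))
    · exact Or.inr (Or.inr (Or.inr (Or.inl h)))
    · exact Or.inr (Or.inr (Or.inr (Or.inr ⟨w, hw, h.symm⟩)))
  · rintro (h | h | h | h | ⟨w, hw, h⟩)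
    · exact Or.inl (Or.inl h)
    · exact Or.inl (Or.inr (Or.inl h))
    · exact Or.inl (Or.inr (Or.inr (Or.inl h)))
    · exact Or.inl (Or.inr (Or.inr (Or.inr h)))
    · exact Or.inr ⟨w, hw, h.symm⟩

/-- sums of two elements of `S` below `4u` (modulo `N`) are in `W` -/
theorem sum_S {N u : ℕ} {W : Finset ℕ} (hu : 10 ≤ u) (hN1 : 100 * u ≤ N) (hN2 : N < 100 * u + 100)
    (hW : ∀ w ∈ W, w < 4 * u) {x a b : ℕ} (hx : x < 4 * u) (ha : a ∈ S N u W) (hb : b ∈ S N u W)
    (h : a + b = x ∨ a + b = x + N) : x ∈ W := by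
  rw [mem_S] at ha hb
  rcases ha with ha | ha | ha | ha | ⟨w, hw, ha⟩ <;>
    rcases hb with hb | hb | hb | hb | ⟨w', hw', hb⟩ <;>
    first
      | (exfalso; omega)
      | (exfalso; have := hW w hw; omega)
      | (exfalso; have := hW w' hw'; omega)
      | (exfalso; have := hW w hw; have := hW w' hw'; omega)
      | (have h1 : x = w := by (have := hW w hw; omega)
         rw [h1]; exact hw)
      | (have h1 : x = w' := by (have := hW w' hw'; omega)
         rw [h1]; exact hw')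

/-- every residue which is at least `4u` or in `W` is a sum -/
theorem exists_S {N u : ℕ} {W : Finset ℕ} (hu : 10 ≤ u) (hN1 : 100 * u ≤ N) (hN2 : N < 100 * u + 100)
    {x : ℕ} (hx : x < N) (h : 4 * u ≤ x ∨ x ∈ W) :
    ∃ a ∈ S N u W, ∃ b ∈ S N u W, a + b = x ∨ a + b = x + N := by
  rcases h with h | h
  · by_cases h1 : x ≤ 34 * u
    · exact ⟨N - 6 * u, mem_S.2 (Or.inr (Or.inr (Or.inl rfl))), x + 6 * u,
        mem_S.2 (Or.inl ⟨by omega, by omega⟩), Or.inr (by omega)⟩
    · by_cases h2 : x ≤ 80 * u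
      · by_cases h3 : x ≤ 50 * u
        · exact ⟨10 * u, mem_S.2 (Or.inl ⟨by omega, by omega⟩), x - 10 * u,
            mem_S.2 (Or.inl ⟨by omega, by omega⟩), Or.inl (by omega)⟩
        · exact ⟨40 * u, mem_S.2 (Or.inl ⟨by omega, by omega⟩), x - 40 * u,
            mem_S.2 (Or.inl ⟨by omega, by omega⟩), Or.inl (by omega)⟩
      · exact ⟨N - 1 - 40 * u, mem_S.2 (Or.inr (Or.inr (Or.inr (Or.inl rfl)))), x - (N - 1 - 40 * u),
          mem_S.2 (Or.inl ⟨by omega, by omega⟩), Or.inl (by omega)⟩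
  · exact ⟨5 * u, mem_S.2 (Or.inr (Or.inl rfl)), N + x - 5 * u,
      mem_S.2 (Or.inr (Or.inr (Or.inr (Or.inr ⟨x, h, rfl⟩)))), Or.inr (by omega)⟩

/-- For `N ≥ 1000` prime and `k ≤ N` with `2 N² < 2 ^ k` there is `A` with `|A| > N/4`,
`|A + A| ≤ (99/100) N` and no progression of length `k` in the complement of `A + A`. -/
theorem main {N : ℕ} (hN : N.Prime) (hN0 : 1000 ≤ N) (k : ℕ) (hkN : k ≤ N) (hk : 2 * N ^ 2 < 2 ^ k) :
    ∃ A : Finset (ZMod N), N < 4 * A.card ∧ 100 * (A + A).card ≤ 99 * N ∧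
      ¬ HasAP (((A + A : Finset (ZMod N)) : Set (ZMod N))ᶜ) k := by
  classical
  have : Fact N.Prime := ⟨hN⟩
  have : NeZero N := ⟨hN.ne_zero⟩
  obtain ⟨u, hu⟩ : ∃ u, u = N / 100 := ⟨_, rfl⟩
  have hu1 : 10 ≤ u := by omega
  have hu2 : 100 * u ≤ N := by omega
  have hu3 : N < 100 * u + 100 := by omega
  obtain ⟨J, hJ⟩ : ∃ J : Finset (ZMod N), J = univ.filter (fun x => x.val < 4 * u) := ⟨_, rfl⟩
  have hcast : ∀ n : ℕ, n < N → ((n : ℕ) : ZMod N).val = n := fun n hn => ZMod.val_cast_of_lt hn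
  have hJcard : J.card = 4 * u := by
    have : J = (range (4 * u)).image (fun n : ℕ => (n : ZMod N)) := by
      ext x
      rw [hJ, mem_filter, mem_image]
      constructor
      · rintro ⟨-, h⟩
        exact ⟨x.val, mem_range.2 h, ZMod.natCast_zmod_val x⟩
      · rintro ⟨n, hn, rfl⟩
        rw [mem_range] at hn
        exact ⟨mem_univ _, by rw [hcast n (by omega)]; exact hn⟩
    rw [this, card_image_of_injOn, card_range]
    intro i hi j hj h
    rw [mem_coe, mem_range] at hi hj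
    have h' : (i : ZMod N) = (j : ZMod N) := h
    rw [← hcast i (by omega), ← hcast j (by omega), h']
  obtain ⟨C, hCJ, hC, hCap⟩ := exists_free hN J k hkN hk
  obtain ⟨W, hW⟩ : ∃ W : Finset ℕ, W = (J \ C).image ZMod.val := ⟨_, rfl⟩
  have hW4 : ∀ w ∈ W, w < 4 * u := by
    intro w hw
    rw [hW, mem_image] at hw
    obtain ⟨x, hx, rfl⟩ := hw
    rw [mem_sdiff, hJ, mem_filter] at hx
    exact hx.1.2
  have hWC : ∀ x : ZMod N, x.val ∈ W ↔ x ∈ J ∧ x ∉ C := by
    intro x
    rw [hW, mem_image]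
    constructor
    · rintro ⟨y, hy, hyx⟩
      rw [ZMod.val_injective N hyx, mem_sdiff] at hy
      exact hy
    · intro hx
      exact ⟨x, mem_sdiff.2 hx, rfl⟩
  have hSlt : ∀ n ∈ S N u W, n < N := by
    intro n hn
    rw [mem_S] at hn
    rcases hn with h | h | h | h | ⟨w, hw, h⟩
    · omega
    · omega
    · omega
    · omega
    · have := hW4 w hw
      omega
  obtain ⟨A, hA⟩ : ∃ A : Finset (ZMod N), A = univ.filter (fun x => x.val ∈ S N u W) := ⟨_, rfl⟩
  have hmem : ∀ x : ZMod N, x ∈ A + A ↔ x ∉ C := by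
    intro x
    rw [mem_add]
    constructor
    · rintro ⟨a, ha, b, hb, rfl⟩ hx
      rw [hA, mem_filter] at ha hb
      have hxJ := hCJ hx
      rw [hJ, mem_filter] at hxJ
      have h1 : a.val + b.val = (a + b).val ∨ a.val + b.val = (a + b).val + N := by
        have h2 := ZMod.val_add a b
        have h3 := ZMod.val_lt a
        have h4 := ZMod.val_lt b
        rcases lt_or_ge (a.val + b.val) N with h | h
        · left
          rw [h2, Nat.mod_eq_of_lt h]
        · right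
          rw [h2, Nat.mod_eq_sub_mod h, Nat.mod_eq_of_lt (by omega)]
          omega
      have h2 := sum_S hu1 hu2 hu3 hW4 hxJ.2 ha.2 hb.2 h1
      exact ((hWC _).1 h2).2 hx
    · intro hx
      have hxN := ZMod.val_lt x
      have h1 : 4 * u ≤ x.val ∨ x.val ∈ W := by
        rcases lt_or_ge x.val (4 * u) with h | h
        · right
          exact (hWC x).2 ⟨by rw [hJ, mem_filter]; exact ⟨mem_univ _, h⟩, hx⟩
        · exact Or.inl h
      obtain ⟨a, ha, b, hb, hab⟩ := exists_S hu1 hu2 hu3 hxN h1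
      refine ⟨(a : ZMod N), ?_, (b : ZMod N), ?_, ?_⟩
      · rw [hA, mem_filter, hcast a (hSlt a ha)]
        exact ⟨mem_univ _, ha⟩
      · rw [hA, mem_filter, hcast b (hSlt b hb)]
        exact ⟨mem_univ _, hb⟩
      · rw [← Nat.cast_add]
        rcases hab with h | h
        · rw [h, ZMod.natCast_zmod_val]
        · rw [h, Nat.cast_add, ZMod.natCast_self, add_zero, ZMod.natCast_zmod_val]
  have hAA : A + A = univ \ C := by
    ext x
    rw [hmem, mem_sdiff]
    simp
  refine ⟨A, ?_, ?_, ?_⟩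
  · have h1 : (Icc (10 * u) (40 * u)).card ≤ A.card := by
      apply card_le_card_of_injOn (fun n : ℕ => (n : ZMod N))
      · intro n hn
        rw [mem_coe, mem_Icc] at hn
        rw [mem_coe, hA, mem_filter, hcast n (by omega)]
        exact ⟨mem_univ _, mem_S.2 (Or.inl hn)⟩
      · intro i hi j hj h
        rw [mem_coe, mem_Icc] at hi hj
        have h' : (i : ZMod N) = (j : ZMod N) := h
        rw [← hcast i (by omega), ← hcast j (by omega), h']
    rw [Nat.card_Icc] at h1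
    omega
  · rw [hAA, card_sdiff_of_subset (subset_univ _), card_univ, ZMod.card]
    rw [hJcard] at hC
    omega
  · have : (((A + A : Finset (ZMod N)) : Set (ZMod N))ᶜ) = (C : Set (ZMod N)) := by
      ext x
      rw [Set.mem_compl_iff, mem_coe, hmem, not_not, mem_coe]
    rw [this]
    exact hCap

theorem HasAP_mono {N : ℕ} {X : Set (ZMod N)} {k l : ℕ} (h : k ≤ l) (hl : HasAP X l) : HasAP X k := by
  obtain ⟨h1, a, d, hd, h2⟩ := hl
  exact ⟨h.trans h1, a, d, hd, fun i hi => h2 i (lt_of_lt_of_le hi h)⟩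

theorem L_lt {N : ℕ} (hN : N.Prime) {X : Set (ZMod N)} {k : ℕ} (hk : ¬ HasAP X k) : L X < k := by
  have : Fact N.Prime := ⟨hN⟩
  have h0 : HasAP X 0 := ⟨Nat.zero_le _, 0, 1, one_ne_zero, fun i hi => absurd hi (Nat.not_lt_zero _)⟩
  have hk0 : 0 < k := by
    rcases Nat.eq_zero_or_pos k with h | h
    · exact absurd (h ▸ h0) hk
    · exact h
  have : L X ≤ k - 1 := by
    apply csSup_le ⟨0, h0⟩
    intro l hl
    by_contra hlt
    exact hk (HasAP_mono (by omega) hl)
  omega

/-- For all primes `N ≥ 1000` there is `A ⊆ ℤ/N` with `|A| > N/4`, `|A + A| ≤ (99/100) N` such that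
the longest arithmetic progression in the complement of `A + A` has at most `2 log₂ N + 3`
elements. -/
theorem strong {N : ℕ} (hN : N.Prime) (hN0 : 1000 ≤ N) :
    ∃ A : Finset (ZMod N), (N : ℝ) / 4 < A.card ∧ ((A + A).card : ℝ) ≤ 99 / 100 * N ∧
      (L (((A + A : Finset (ZMod N)) : Set (ZMod N))ᶜ) : ℝ) ≤ 2 * Real.logb 2 N + 3 := by
  obtain ⟨k, hk⟩ : ∃ k, k = 2 * Nat.log 2 N + 4 := ⟨_, rfl⟩
  have h1 : N < 2 ^ (Nat.log 2 N + 1) := Nat.lt_pow_succ_log_self (by norm_num) N
  have h2 : 2 * N ^ 2 < 2 ^ k := by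
    have : N ^ 2 < (2 ^ (Nat.log 2 N + 1)) ^ 2 := Nat.pow_lt_pow_left h1 (by norm_num)
    have h3 : 2 ^ k = 4 * (2 ^ (Nat.log 2 N + 1)) ^ 2 := by
      rw [hk, ← pow_mul]
      ring
    omega
  have h3 : k ≤ N := by
    have h4 : 2 ^ Nat.log 2 N ≤ N := Nat.pow_log_le_self 2 (by omega)
    have h5 : ∀ m : ℕ, 9 ≤ m → 2 * m + 4 ≤ 2 ^ m := by
      intro m hm
      induction m, hm using Nat.le_induction with
      | base => norm_num
      | succ m hm ih => rw [pow_succ]; omega
    have h6 : 9 ≤ Nat.log 2 N := Nat.le_log_of_pow_le (by norm_num) (by omega)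
    have := h5 _ h6
    omega
  obtain ⟨A, hA1, hA2, hA3⟩ := main hN hN0 k h3 h2
  refine ⟨A, ?_, ?_, ?_⟩
  · rw [div_lt_iff₀ (by norm_num)]
    exact_mod_cast (by linarith : N < A.card * 4)
  · have : (100 : ℝ) * ((A + A).card : ℝ) ≤ 99 * N := by exact_mod_cast hA2
    linarith
  · have h7 := L_lt hN hA3
    have h8 : L (((A + A : Finset (ZMod N)) : Set (ZMod N))ᶜ) ≤ 2 * Nat.log 2 N + 3 := by omega
    have h9 : ((Nat.log 2 N : ℕ) : ℝ) ≤ Real.logb 2 N := by
      have := Real.natLog_le_logb N 2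
      simpa using this
    have h10 : (L (((A + A : Finset (ZMod N)) : Set (ZMod N))ᶜ) : ℝ) ≤ 2 * (Nat.log 2 N : ℕ) + 3 := by
      exact_mod_cast h8
    linarith

/-- **Q1 holds.**  For every `η > 0` and every large prime `N` there is `A ⊆ ℤ/N` with `|A| > N/4`,
`|A + A| ≤ (99/100) N` and `L((ℤ/N) ∖ (A + A)) ≤ N ^ η`.  Moreover `N ^ η` can be replaced by
`2 log₂ N + 3`. -/
theorem result :
    (∀ η : ℝ, 0 < η → ∃ N₀ : ℕ, ∀ N : ℕ, N₀ ≤ N → N.Prime →
      ∃ A : Finset (ZMod N), (N : ℝ) / 4 < A.card ∧ ((A + A).card : ℝ) ≤ 99 / 100 * N ∧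
        (L (((A + A : Finset (ZMod N)) : Set (ZMod N))ᶜ) : ℝ) ≤ (N : ℝ) ^ η) ∧
    ∃ N₀ : ℕ, ∀ N : ℕ, N₀ ≤ N → N.Prime →
      ∃ A : Finset (ZMod N), (N : ℝ) / 4 < A.card ∧ ((A + A).card : ℝ) ≤ 99 / 100 * N ∧
        (L (((A + A : Finset (ZMod N)) : Set (ZMod N))ᶜ) : ℝ) ≤ 2 * Real.logb 2 N + 3 := by
  refine ⟨?_, 1000, fun N hN hp => strong hp hN⟩
  intro η hη
  have h1 : ∀ᶠ x : ℝ in Filter.atTop, 2 * Real.logb 2 x + 3 ≤ x ^ η := by
    have h2 := (isLittleO_log_rpow_atTop hη).bound (show (0 : ℝ) < Real.log 2 / 4 by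
      have := Real.log_pos (show (1 : ℝ) < 2 by norm_num)
      positivity)
    have h3 := (tendsto_rpow_atTop hη).eventually_ge_atTop 6
    filter_upwards [h2, h3, Filter.eventually_ge_atTop 1] with x h2 h3 h4
    have hlog : 0 ≤ Real.log x := Real.log_nonneg h4
    have hpow : 0 ≤ x ^ η := by positivity
    rw [Real.norm_eq_abs, Real.norm_eq_abs, abs_of_nonneg hlog, abs_of_nonneg hpow] at h2
    have hl2 := Real.log_pos (show (1 : ℝ) < 2 by norm_num)
    have h5 : Real.logb 2 x ≤ x ^ η / 4 := by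
      unfold Real.logb
      rw [div_le_iff₀ hl2]
      linarith
    linarith
  obtain ⟨N₁, hN₁⟩ := Filter.eventually_atTop.1 (tendsto_natCast_atTop_atTop.eventually h1)
  refine ⟨max N₁ 1000, fun N hN hp => ?_⟩
  obtain ⟨A, hA1, hA2, hA3⟩ := strong hp ((le_max_right _ _).trans hN)
  exact ⟨A, hA1, hA2, hA3.trans (hN₁ N ((le_max_left _ _).trans hN))⟩

end Pool.Agent.Results.MP_4e2f3e_nt.LogProgressions
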